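import Mathlib
import Pool.Agent.H76.CW.Defs
import Pool.Agent.H76.CW.Class

/-!
A decidable class of graphs of linear clique-width on which every problem expressible in monadic
second-order logic has a polynomial time solution.

The class consists of the isomorphic copies of the graphs `G_m` (`m = 0, 1, …`), where `G_m` is
the inner product graph on the vectors of length `m` over the field with two elements together
with isolated vertices. The number of isolated vertices is chosen such that the `i`-th binary
digit of the number of vertices of `G_m` is the truth value of the `i`-th sentence in `G_m`,
for all sentences with a small number `i` and a small quantifier rank.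
-/

set_option autoImplicit false

namespace Pool.Agent.Results.MP_62751d_lc.DecidableClass

open Pool.Agent.H76.CW

/-- Main theorem. -/
theorem result : ∃ C : Set FinGraph,
    IsoClosed C ∧
    ComputablePred (fun w : List Bool => ∃ G ∈ C, encodeGraph G = w) ∧
    ¬ LogBounded C ∧
    (∀ G ∈ C, G.1 ≤ 27 * cliqueWidth G.2 + 3) ∧
    ∀ φ : MSO 0 0, PolyTimeOn C (fun G => Models G.2 φ) :=
  ⟨cls, cls_isoClosed, cls_computable, cls_not_logBounded, cls_lower, cls_poly⟩

end Pool.Agent.Results.MP_62751d_lc.DecidableClass
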